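import Pool.Agent.Helper21.PS.Basic

/-!
# MP_8013d7_co, module TS: two-stage counting
-/

set_option autoImplicit false

namespace PS

open SimpleGraph Finset Pool.Agent.Helper37.PathSys
open Pool.Agent.Helper37.PathSys.PathSystem

open scoped Classical

noncomputable section

/-! ## Module TS (two-stage counting) -/

theorem two_stage {α ι C : Type} [Fintype ι] (A : Finset α) (code : α → ι → C)
    (hinj : ∀ P ∈ A, ∀ Q ∈ A, code P = code Q → P = Q) (X : Finset ι)
    (wt : ι → C → ℝ) (hwt : ∀ i c, 0 ≤ wt i c)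
    (o1 : ι → Finset C) (o2 : α → ι → Finset C)
    (hdep : ∀ P ∈ A, ∀ Q ∈ A, (∀ i ∈ X, code P i = code Q i) → o2 P = o2 Q)
    (h1 : ∀ P ∈ A, ∀ i ∈ X, code P i ∈ o1 i)
    (h2 : ∀ P ∈ A, ∀ i, i ∉ X → code P i ∈ o2 P i) (B : ℝ)
    (hB : ∀ P ∈ A, ∏ i ∈ Xᶜ, ∑ c ∈ o2 P i, wt i c ≤ B) (hB0 : 0 ≤ B) :
    ∑ P ∈ A, ∏ i, wt i (code P i) ≤ B * ∏ i ∈ X, ∑ c ∈ o1 i, wt i c := by
  set r : α → (i : ι) → i ∈ X → C := fun P i _ => code P i with hr
  have hmaps : ∀ P ∈ A, r P ∈ X.pi o1 := by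
    intro P hP
    rw [Finset.mem_pi]
    intro i hi
    exact h1 P hP i hi
  rw [Finset.prod_sum, Finset.mul_sum, ← Finset.sum_fiberwise_of_maps_to hmaps]
  refine Finset.sum_le_sum fun f _ => ?_
  -- one class
  have hsplit : ∀ P ∈ A.filter (fun P => r P = f), ∏ i, wt i (code P i) =
      (∏ x ∈ X.attach, wt x.1 (f x.1 x.2)) * ∏ i ∈ Xᶜ, wt i (code P i) := by
    intro P hP
    rw [Finset.mem_filter] at hP
    rw [← Finset.prod_mul_prod_compl X, ← Finset.prod_attach X]
    congr 1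
    refine Finset.prod_congr rfl fun x _ => ?_
    rw [← hP.2]
  rw [Finset.sum_congr rfl hsplit, ← Finset.mul_sum, mul_comm]
  refine mul_le_mul_of_nonneg_right ?_ (Finset.prod_nonneg fun _ _ => hwt _ _)
  rcases (A.filter (fun P => r P = f)).eq_empty_or_nonempty with he | ⟨P0, hP0⟩
  · rw [he]
    simpa using hB0
  · have hP0' := Finset.mem_filter.1 hP0
    refine le_trans ?_ (hB P0 hP0'.1)
    rw [Finset.prod_sum]
    have hagree : ∀ P ∈ A.filter (fun P => r P = f), ∀ Q ∈ A.filter (fun P => r P = f),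
        ∀ i ∈ X, code P i = code Q i := by
      intro P hP Q hQ i hi
      have e1 := (Finset.mem_filter.1 hP).2
      have e2 := (Finset.mem_filter.1 hQ).2
      have : r P i hi = r Q i hi := by rw [e1, e2]
      exact this
    set r2 : α → (i : ι) → i ∈ Xᶜ → C := fun P i _ => code P i with hr2
    have hinj2 : ∀ P ∈ A.filter (fun P => r P = f), ∀ Q ∈ A.filter (fun P => r P = f),
        r2 P = r2 Q → P = Q := by
      intro P hP Q hQ he
      refine hinj P (Finset.mem_filter.1 hP).1 Q (Finset.mem_filter.1 hQ).1 ?_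
      funext i
      by_cases hi : i ∈ X
      · exact hagree P hP Q hQ i hi
      · have hi' : i ∈ Xᶜ := Finset.mem_compl.2 hi
        have : r2 P i hi' = r2 Q i hi' := by rw [he]
        exact this
    have e3 : ∑ P ∈ A.filter (fun P => r P = f), ∏ i ∈ Xᶜ, wt i (code P i) =
        ∑ g ∈ (A.filter (fun P => r P = f)).image r2, ∏ x ∈ Xᶜ.attach, wt x.1 (g x.1 x.2) := by
      rw [Finset.sum_image hinj2]
      refine Finset.sum_congr rfl fun P _ => ?_
      rw [← Finset.prod_attach Xᶜ]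
    rw [e3]
    refine Finset.sum_le_sum_of_subset_of_nonneg ?_
      (fun _ _ _ => Finset.prod_nonneg fun _ _ => hwt _ _)
    intro g hg
    rw [Finset.mem_image] at hg
    obtain ⟨P, hP, rfl⟩ := hg
    rw [Finset.mem_pi]
    intro i hi
    have hP' := (Finset.mem_filter.1 hP).1
    have e4 : o2 P = o2 P0 := hdep P hP' P0 hP0'.1 (hagree P hP P0 hP0)
    rw [← e4]
    exact h2 P hP' i (Finset.mem_compl.1 hi)

end

end PS
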