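import Pool.Agent.Helper21.PS.Basic

/-!
# MP_8013d7_co, module HI: heavy pairs
-/

set_option autoImplicit false

namespace PS

open SimpleGraph Finset Pool.Agent.Helper37.PathSys
open Pool.Agent.Helper37.PathSys.PathSystem

open scoped Classical

noncomputable section

variable {n : ℕ} {G : SimpleGraph (Fin n)}

namespace HI

/-- sums over unordered pairs -/
lemma sum_pr (f : Fin n → Fin n → ℝ) (hf : ∀ u v, 0 ≤ f u v) :
    ∑ p : Pr n, (f p.1.1 p.1.2 + f p.1.2 p.1.1) ≤ ∑ u, ∑ v, f u v := by
  rw [← Finset.sum_product', Finset.univ_product_univ]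
  have e1 : ∑ p : Pr n, f p.1.1 p.1.2 =
      ∑ q ∈ (univ : Finset (Fin n × Fin n)).filter (fun q => q.1 < q.2), f q.1 q.2 :=
    (Finset.sum_subtype _ (by simp) (fun q : Fin n × Fin n => f q.1 q.2)).symm
  have e2 : ∑ p : Pr n, f p.1.2 p.1.1 =
      ∑ q ∈ (univ : Finset (Fin n × Fin n)).filter (fun q => q.2 < q.1), f q.1 q.2 := by
    have e3 : ∑ p : Pr n, f p.1.2 p.1.1 =
        ∑ q ∈ (univ : Finset (Fin n × Fin n)).filter (fun q => q.1 < q.2), f q.2 q.1 :=
      (Finset.sum_subtype _ (by simp) (fun q : Fin n × Fin n => f q.2 q.1)).symm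
    rw [e3]
    refine Finset.sum_bij' (fun q _ => (q.2, q.1)) (fun q _ => (q.2, q.1)) ?_ ?_ ?_ ?_ ?_
    · intro q hq; simpa using hq
    · intro q hq; simpa using hq
    · intro q _; rfl
    · intro q _; rfl
    · intro q _; rfl
  rw [Finset.sum_add_distrib, e1, e2, ← Finset.sum_union]
  · exact Finset.sum_le_sum_of_subset_of_nonneg (Finset.subset_univ _) (fun _ _ _ => hf _ _)
  · rw [Finset.disjoint_left]
    intro q h1 h2
    simp only [mem_filter, mem_univ, true_and] at h1 h2
    exact absurd h2 (not_lt.2 h1.le)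

lemma lh_comm (a : Arc n) (u v : Fin n) : lh a u v = lh a v u := by
  unfold lh
  refine Finset.card_bij' (fun q _ => (q.2, q.1)) (fun q _ => (q.2, q.1)) ?_ ?_ ?_ ?_
  · intro q hq
    simp only [mem_filter, mem_univ, true_and] at hq ⊢
    exact ⟨hq.1.symm, hq.2.2, hq.2.1⟩
  · intro q hq
    simp only [mem_filter, mem_univ, true_and] at hq ⊢
    exact ⟨hq.1.symm, hq.2.2, hq.2.1⟩
  · intro q _; rfl
  · intro q _; rfl

lemma sum_lh_all (a : Arc n) :
    ∑ u, ∑ v, (lh a u v : ℝ) ≤ ∑ x, ∑ y, (ba a x y : ℝ) * ba a y x := by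
  have h1 : ∀ u v, lh a u v = ∑ x, ∑ y, if x ≠ y ∧ a y u = some x ∧ a x v = some y then 1 else 0 := by
    intro u v
    unfold lh
    rw [Finset.card_filter, ← Finset.univ_product_univ, Finset.sum_product]
  have h2 : ∀ x y, ba a x y * ba a y x =
      ∑ u, ∑ v, if a y u = some x ∧ a x v = some y then 1 else 0 := by
    intro x y
    unfold ba
    rw [Finset.card_filter, Finset.card_filter, Finset.sum_mul_sum]
    refine Finset.sum_congr rfl fun u _ => Finset.sum_congr rfl fun v _ => ?_
    split_ifs with h3 h4 h5 h6 h7 <;> simp_all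
  have h3 : ∑ u, ∑ v, lh a u v ≤ ∑ x, ∑ y, ba a x y * ba a y x := by
    calc ∑ u, ∑ v, lh a u v
        ≤ ∑ u, ∑ v, ∑ x, ∑ y, (if a y u = some x ∧ a x v = some y then 1 else 0) := by
          refine Finset.sum_le_sum fun u _ => Finset.sum_le_sum fun v _ => ?_
          rw [h1]
          refine Finset.sum_le_sum fun x _ => Finset.sum_le_sum fun y _ => ?_
          by_cases h : a y u = some x ∧ a x v = some y
          · rw [if_pos h]
            split_ifs <;> simp
          · rw [if_neg h, if_neg (fun h' => h h'.2)]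
      _ = ∑ u, ∑ x, ∑ v, ∑ y, (if a y u = some x ∧ a x v = some y then 1 else 0) :=
          Finset.sum_congr rfl fun u _ => Finset.sum_comm
      _ = ∑ u, ∑ x, ∑ y, ∑ v, (if a y u = some x ∧ a x v = some y then 1 else 0) :=
          Finset.sum_congr rfl fun u _ => Finset.sum_congr rfl fun x _ => Finset.sum_comm
      _ = ∑ x, ∑ u, ∑ y, ∑ v, (if a y u = some x ∧ a x v = some y then 1 else 0) :=
          Finset.sum_comm
      _ = ∑ x, ∑ y, ∑ u, ∑ v, (if a y u = some x ∧ a x v = some y then 1 else 0) :=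
          Finset.sum_congr rfl fun x _ => Finset.sum_comm
      _ = ∑ x, ∑ y, ba a x y * ba a y x :=
          Finset.sum_congr rfl fun x _ => Finset.sum_congr rfl fun y _ => (h2 x y).symm
  exact_mod_cast h3

lemma sum_ba (a : Arc n) : ∑ x, ∑ y, ba a x y = nb a := by
  rw [Finset.sum_comm]
  unfold nb
  rw [Finset.card_filter, ← Finset.univ_product_univ, Finset.sum_product]
  refine Finset.sum_congr rfl fun y _ => ?_
  unfold ba
  simp_rw [Finset.card_filter]
  rw [Finset.sum_comm]
  refine Finset.sum_congr rfl fun u _ => ?_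
  rcases h : a y u with _ | x
  · simp
  · simp

lemma ba_le (a : Arc n) (x y : Fin n) : ba a x y ≤ n := by
  unfold ba
  exact (Finset.card_filter_le _ _).trans (by simp)

end HI

open HI

theorem sum_lh (a : Arc n) :
    2 * ∑ p : Pr n, (lh a p.1.1 p.1.2 : ℝ) ≤ ∑ x, ∑ y, (ba a x y : ℝ) * ba a y x := by
  refine le_trans ?_ (sum_lh_all a)
  refine le_trans ?_ (sum_pr (fun u v => (lh a u v : ℝ)) (fun _ _ => Nat.cast_nonneg _))
  rw [Finset.mul_sum]
  refine Finset.sum_le_sum fun p _ => ?_
  rw [lh_comm a p.1.2 p.1.1]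
  linarith

theorem lh_sum_le (a : Arc n) :
    ∑ p : Pr n, (lh a p.1.1 p.1.2 : ℝ) ≤ (nb a : ℝ) * n := by
  have h1 := sum_lh a
  have h2 : ∑ x, ∑ y, (ba a x y : ℝ) * ba a y x ≤ (nb a : ℝ) * n := by
    rw [← sum_ba a]
    push_cast
    rw [Finset.sum_mul]
    refine Finset.sum_le_sum fun x _ => ?_
    rw [Finset.sum_mul]
    refine Finset.sum_le_sum fun y _ => ?_
    have h3 : (ba a y x : ℝ) ≤ n := by exact_mod_cast ba_le a y x
    exact mul_le_mul_of_nonneg_left h3 (Nat.cast_nonneg _)
  have h3 : 0 ≤ ∑ p : Pr n, (lh a p.1.1 p.1.2 : ℝ) :=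
    Finset.sum_nonneg fun _ _ => Nat.cast_nonneg _
  linarith

namespace HI

variable {h : ℕ} {lam δ : ℝ} {F : SimpleGraph (Fin n)} {a : Arc n}

lemma ba_self (ha : ArcOK F a) (x : Fin n) : ba a x x = 0 := by
  unfold ba
  rw [Finset.card_eq_zero, Finset.filter_eq_empty_iff]
  intro u _ hu
  exact (ha x u x hu).2.1 rfl

lemma ba_le_dg (ha : ArcOK F a) (x y : Fin n) : ba a x y ≤ dg F x := by
  unfold ba dg
  refine Finset.card_le_card fun u hu => ?_
  simp only [mem_filter, mem_univ, true_and] at hu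
  simp only [NF, mem_filter, mem_univ, true_and]
  exact (ha y u x hu).1.symm

lemma ba_add (hG : GoodG δ h G) (hF : F ≤ G) (ha : ArcOK F a) {x y : Fin n} (hxy : x ≠ y) :
    (ba a x y : ℝ) + ba a y x ≤ (3 / 4 + δ) * n := by
  refine le_trans ?_ (hG.union x y hxy)
  have h1 : Disjoint (univ.filter fun u => a y u = some x) (univ.filter fun u => a x u = some y) := by
    rw [Finset.disjoint_left]
    intro u h1 h2
    simp only [mem_filter, mem_univ, true_and] at h1 h2
    exact (ha y u x h1).2.2.2 (ha x u y h2).1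
  have h2 : ba a x y + ba a y x ≤ (NF G x ∪ NF G y).card := by
    unfold ba
    rw [← Finset.card_union_of_disjoint h1]
    refine Finset.card_le_card fun u hu => ?_
    rw [mem_union] at hu ⊢
    simp only [mem_filter, mem_univ, true_and, NF] at hu ⊢
    rcases hu with hu | hu
    · exact Or.inl (hF (ha y u x hu).1).symm
    · exact Or.inr (hF (ha x u y hu).1).symm
  exact_mod_cast h2

lemma prod_le (hG : GoodG δ h G) (hF : F ≤ G) (ha : ArcOK F a) (x y : Fin n) :
    (ba a x y : ℝ) * ba a y x ≤ ((ba a x y : ℝ) + ba a y x) * ((3 / 4 + δ) * n / 4) := by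
  by_cases hxy : x = y
  · subst hxy
    rw [ba_self ha]
    simp
  · have h1 := ba_add hG hF ha hxy
    have h2 : (0 : ℝ) ≤ ba a x y := Nat.cast_nonneg _
    have h3 : (0 : ℝ) ≤ ba a y x := Nat.cast_nonneg _
    nlinarith [sq_nonneg ((ba a x y : ℝ) - ba a y x),
      mul_le_mul_of_nonneg_left h1 (add_nonneg h2 h3)]

/-- the arcs as pairs -/
def arcs (a : Arc n) : Finset (Fin n × Fin n) := univ.filter fun q => a q.1 q.2 ≠ none

/-- every pair of `KKs` comes from at most two arcs, and a pair coming from two arcs of `S` has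
both ends in `T` -/
lemma arcs_count (ha : ArcOK F a) (S : Finset (Fin n × Fin n)) (hS : S ⊆ arcs a)
    (T : Finset (Fin n)) (hT : ∀ q ∈ S, q.1 ∈ T) :
    2 * S.card ≤ 2 * (KKs a).card + T.card ^ 2 := by
  have hne : ∀ q ∈ S, q.1 ≠ q.2 := by
    intro q hq
    have h1 := hS hq
    simp only [arcs, mem_filter, mem_univ, true_and] at h1
    obtain ⟨x, hx⟩ := Option.ne_none_iff_exists'.1 h1
    exact fun h => (ha q.1 q.2 x hx).2.2.1 h.symm
  set S1 := S.filter fun q => q.1 < q.2 with hS1
  set S2 := S.filter fun q => q.2 < q.1 with hS2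
  have hcard : S.card = S1.card + S2.card := by
    have h1 : S = S1 ∪ S2 := by
      ext q
      simp only [hS1, hS2, mem_union, mem_filter]
      constructor
      · intro hq
        rcases lt_or_gt_of_ne (hne q hq) with h | h
        · exact Or.inl ⟨hq, h⟩
        · exact Or.inr ⟨hq, h⟩
      · rintro (h | h) <;> exact h.1
    have h2 : Disjoint S1 S2 := by
      rw [Finset.disjoint_left]
      intro q h1 h2
      simp only [hS1, hS2, mem_filter] at h1 h2
      exact absurd h2.2 (not_lt.2 h1.2.le)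
    conv_lhs => rw [h1]
    exact Finset.card_union_of_disjoint h2
  -- embed both into ordered pairs
  set K := (KKs a).map (Function.Embedding.subtype _) with hK
  set S2' := S2.image Prod.swap with hS2'
  have hS2c : S2'.card = S2.card := Finset.card_image_of_injective _ Prod.swap_injective
  have hsub1 : S1 ⊆ K := by
    intro q hq
    simp only [hS1, mem_filter] at hq
    rw [hK, Finset.mem_map]
    refine ⟨⟨q, hq.2⟩, ?_, rfl⟩
    have h1 := hS hq.1
    simp only [arcs, mem_filter, mem_univ, true_and] at h1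
    simp only [KKs, mem_filter, mem_univ, true_and]
    exact Or.inl h1
  have hsub2 : S2' ⊆ K := by
    intro q hq
    rw [hS2', Finset.mem_image] at hq
    obtain ⟨q', hq', rfl⟩ := hq
    simp only [hS2, mem_filter] at hq'
    rw [hK, Finset.mem_map]
    refine ⟨⟨q'.swap, hq'.2⟩, ?_, rfl⟩
    have h1 := hS hq'.1
    simp only [arcs, mem_filter, mem_univ, true_and] at h1
    simp only [KKs, mem_filter, mem_univ, true_and, Prod.fst_swap, Prod.snd_swap]
    exact Or.inr h1
  have hKc : K.card = (KKs a).card := by rw [hK, Finset.card_map]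
  have h3 : S1.card + S2'.card = (S1 ∪ S2').card + (S1 ∩ S2').card :=
    (Finset.card_union_add_card_inter _ _).symm
  have h4 : (S1 ∪ S2').card ≤ K.card := Finset.card_le_card (Finset.union_subset hsub1 hsub2)
  -- the intersection
  have h5 : 2 * (S1 ∩ S2').card ≤ T.card ^ 2 := by
    have h6 : (S1 ∩ S2') ∪ (S1 ∩ S2').image Prod.swap ⊆ T ×ˢ T := by
      have key : ∀ q ∈ S1 ∩ S2', q.1 ∈ T ∧ q.2 ∈ T := by
        intro q hq
        rw [mem_inter] at hq
        have h1 := (mem_filter.1 hq.1).1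
        have h2 := hq.2
        rw [hS2', Finset.mem_image] at h2
        obtain ⟨q', hq', rfl⟩ := h2
        have h3 := (mem_filter.1 hq').1
        exact ⟨hT _ h1, hT _ h3⟩
      intro q hq
      rw [mem_union] at hq
      rw [Finset.mem_product]
      rcases hq with hq | hq
      · exact key q hq
      · rw [Finset.mem_image] at hq
        obtain ⟨q', hq', rfl⟩ := hq
        exact ⟨(key q' hq').2, (key q' hq').1⟩
    have h7 : Disjoint (S1 ∩ S2') ((S1 ∩ S2').image Prod.swap) := by
      rw [Finset.disjoint_left]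
      intro q h1 h2
      rw [Finset.mem_image] at h2
      obtain ⟨q', hq', rfl⟩ := h2
      rw [mem_inter] at h1 hq'
      have h3 := (mem_filter.1 h1.1).2
      have h4 := (mem_filter.1 hq'.1).2
      simp only [Prod.fst_swap, Prod.snd_swap] at h3
      exact absurd h3 (not_lt.2 h4.le)
    have h8 := Finset.card_le_card h6
    rw [Finset.card_union_of_disjoint h7, Finset.card_image_of_injective _ Prod.swap_injective,
      Finset.card_product] at h8
    nlinarith
  rw [hcard, ← hS2c]
  omega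

lemma nb_le (ha : ArcOK F a) : nb a ≤ 2 * (KKs a).card := by
  -- every pair comes from at most two arcs
  have hne : ∀ q ∈ arcs a, q.1 ≠ q.2 := by
    intro q h1
    simp only [arcs, mem_filter, mem_univ, true_and] at h1
    obtain ⟨x, hx⟩ := Option.ne_none_iff_exists'.1 h1
    exact fun h => (ha q.1 q.2 x hx).2.2.1 h.symm
  have h1 : arcs a ⊆ (KKs a).map (Function.Embedding.subtype _) ∪
      ((KKs a).map (Function.Embedding.subtype _)).image Prod.swap := by
    intro q hq
    have h2 := hq
    simp only [arcs, mem_filter, mem_univ, true_and] at h2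
    rw [mem_union]
    rcases lt_or_gt_of_ne (hne q hq) with h | h
    · left
      rw [Finset.mem_map]
      refine ⟨⟨q, h⟩, ?_, rfl⟩
      simp only [KKs, mem_filter, mem_univ, true_and]
      exact Or.inl h2
    · right
      rw [Finset.mem_image]
      refine ⟨q.swap, ?_, Prod.swap_swap q⟩
      rw [Finset.mem_map]
      refine ⟨⟨q.swap, h⟩, ?_, rfl⟩
      simp only [KKs, mem_filter, mem_univ, true_and, Prod.fst_swap, Prod.snd_swap]
      exact Or.inr h2
  have h2 := Finset.card_le_card h1
  have h3 := Finset.card_union_le ((KKs a).map (Function.Embedding.subtype _))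
    (((KKs a).map (Function.Embedding.subtype _)).image Prod.swap)
  rw [Finset.card_image_of_injective _ Prod.swap_injective, Finset.card_map] at h3
  unfold nb
  change (arcs a).card ≤ _
  omega

end HI

section

variable {h : ℕ} {lam δ : ℝ} {F : SimpleGraph (Fin n)} {a : Arc n}

theorem heavy_ineq (hp : Par n h lam δ) (hG : GoodG δ h G) (hF : F ≤ G) (ha : ArcOK F a) :
    4 / h * ∑ p : Pr n, (lh a p.1.1 p.1.2 : ℝ) - (lam - 1) * (KKs a).card ≤
      lam * ((Hs F).card : ℝ) ^ 2 - 0.09 * lam * nb a := by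
  have hlam : 10 ^ 6 ≤ lam := hp.big
  have hn0 : (0 : ℝ) ≤ n := Nat.cast_nonneg n
  have hh0 : (0 : ℝ) ≤ h := Nat.cast_nonneg h
  have hnh : (n : ℝ) / h ≤ lam + 2 := by have := (abs_le.1 hp.close).2; linarith
  have hnh0 : (0 : ℝ) ≤ (n : ℝ) / h := by positivity
  have hδ0 := hp.dpos
  have hδ : δ * (lam + 2) ≤ 0.01 := by
    have h1 := hp.dsmall
    have h2 : lam ^ 4 = lam * lam ^ 3 := by ring
    have h3 : (10 ^ 6 : ℝ) ^ 3 ≤ lam ^ 3 := pow_le_pow_left₀ (by norm_num) hlam 3
    have h4 : (lam + 2) * 1000 ≤ lam ^ 4 := by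
      rw [h2]
      have : lam * (10 ^ 6 : ℝ) ^ 3 ≤ lam * lam ^ 3 := mul_le_mul_of_nonneg_left h3 (by linarith)
      nlinarith
    have h5 : δ * ((lam + 2) * 1000) ≤ δ * lam ^ 4 := mul_le_mul_of_nonneg_left h4 hδ0
    linarith
  -- big pairs
  set big : Fin n → Fin n → Prop := fun x y => n ≤ 100 * ba a x y ∧ n ≤ 100 * ba a y x with hbig
  have hbsym : ∀ x y, big x y ↔ big y x := fun x y => and_comm
  set bHH : ℝ := ∑ x, ∑ y, if big x y then (ba a x y : ℝ) else 0 with hbHH
  set b : ℝ := (nb a : ℝ) with hb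
  have hbsum : ∑ x, ∑ y, (ba a x y : ℝ) = b := by
    rw [hb, ← sum_ba a]; push_cast; rfl
  have hbHHb : bHH ≤ b := by
    rw [← hbsum]
    refine Finset.sum_le_sum fun x _ => Finset.sum_le_sum fun y _ => ?_
    split_ifs
    · exact le_rfl
    · exact Nat.cast_nonneg _
  have hbHH0 : 0 ≤ bHH := by
    refine Finset.sum_nonneg fun x _ => Finset.sum_nonneg fun y _ => ?_
    split_ifs
    · exact Nat.cast_nonneg _
    · exact le_rfl
  have hbHH' : ∑ x, ∑ y, (if big x y then (ba a y x : ℝ) else 0) = bHH := by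
    rw [hbHH, Finset.sum_comm]
    refine Finset.sum_congr rfl fun x _ => Finset.sum_congr rfl fun y _ => ?_
    by_cases h1 : big x y
    · rw [if_pos h1, if_pos ((hbsym x y).1 h1)]
    · rw [if_neg h1, if_neg (fun h2 => h1 ((hbsym x y).2 h2))]
  have hbsum' : ∑ x, ∑ y, (ba a y x : ℝ) = b := by rw [Finset.sum_comm]; exact hbsum
  set c1 : ℝ := (3 / 4 + δ) * n / 4 with hc1
  have hprod : ∀ x y, (ba a x y : ℝ) * ba a y x ≤
      (n : ℝ) / 100 * ((ba a x y : ℝ) + ba a y x) +
      ((if big x y then (ba a x y : ℝ) else 0) + (if big x y then (ba a y x : ℝ) else 0)) *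
        (c1 - n / 100) := by
    intro x y
    have h2 : (0 : ℝ) ≤ ba a x y := Nat.cast_nonneg _
    have h3 : (0 : ℝ) ≤ ba a y x := Nat.cast_nonneg _
    by_cases h1 : big x y
    · rw [if_pos h1, if_pos h1]
      have h4 := prod_le hG hF ha x y
      rw [← hc1] at h4
      linarith
    · rw [if_neg h1, if_neg h1]
      have h4 : (100 * ba a x y : ℝ) ≤ n ∨ (100 * ba a y x : ℝ) ≤ n := by
        by_contra hcon
        push Not at hcon
        apply h1
        constructor
        · have : n < 100 * ba a x y := by exact_mod_cast hcon.1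
          exact this.le
        · have : n < 100 * ba a y x := by exact_mod_cast hcon.2
          exact this.le
      rcases h4 with h4 | h4
      · nlinarith
      · nlinarith
  have hS : ∑ p : Pr n, (lh a p.1.1 p.1.2 : ℝ) ≤ n / 100 * b + bHH * (c1 - n / 100) := by
    have h1 := sum_lh a
    have h2 : ∑ x, ∑ y, (ba a x y : ℝ) * ba a y x ≤
        2 * (n / 100 * b + bHH * (c1 - n / 100)) := by
      calc ∑ x, ∑ y, (ba a x y : ℝ) * ba a y x
          ≤ ∑ x, ∑ y, ((n : ℝ) / 100 * ((ba a x y : ℝ) + ba a y x) +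
            ((if big x y then (ba a x y : ℝ) else 0) + (if big x y then (ba a y x : ℝ) else 0)) *
            (c1 - n / 100)) :=
            Finset.sum_le_sum fun x _ => Finset.sum_le_sum fun y _ => hprod x y
        _ = n / 100 * (∑ x, ∑ y, (ba a x y : ℝ) + ∑ x, ∑ y, (ba a y x : ℝ)) +
            (bHH + ∑ x, ∑ y, (if big x y then (ba a y x : ℝ) else 0)) * (c1 - n / 100) := by
            simp only [Finset.sum_add_distrib, ← Finset.mul_sum, ← Finset.sum_mul, hbHH]
        _ = _ := by
            rw [hbsum, hbsum', hbHH']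
            ring
    linarith
  -- lower bounds for the number of pairs
  have hK1 : b ≤ 2 * ((KKs a).card : ℝ) := by
    have := nb_le ha
    rw [hb]
    exact_mod_cast this
  have hK2 : 2 * bHH ≤ 2 * ((KKs a).card : ℝ) + ((Hs F).card : ℝ) ^ 2 := by
    set S : Finset (Fin n × Fin n) := univ.filter fun q => ∃ x, a q.1 q.2 = some x ∧ big x q.1
      with hSdef
    have hScard : (S.card : ℝ) = bHH := by
      rw [hbHH, Finset.sum_comm]
      have h1 : S.card = ∑ y, ∑ x, if big x y then ba a x y else 0 := by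
        rw [hSdef, Finset.card_filter, ← Finset.univ_product_univ, Finset.sum_product]
        refine Finset.sum_congr rfl fun y _ => ?_
        have h2 : ∀ x, (if big x y then ba a x y else 0) =
            ∑ u, if a y u = some x ∧ big x y then 1 else 0 := by
          intro x
          by_cases h3 : big x y
          · rw [if_pos h3]
            have h5 : ba a x y = ∑ u, if a y u = some x then 1 else 0 := by
              unfold ba
              rw [Finset.card_filter]
            refine h5.trans (Finset.sum_congr rfl fun u _ => ?_)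
            simp [h3]
          · rw [if_neg h3]
            symm
            refine Finset.sum_eq_zero fun u _ => ?_
            simp [h3]
        simp_rw [h2]
        rw [Finset.sum_comm]
        refine Finset.sum_congr rfl fun u _ => ?_
        rcases h3 : a y u with _ | x
        · simp
        · by_cases h4 : big x y
          · rw [if_pos ⟨x, rfl, h4⟩, Finset.sum_eq_single_of_mem x (mem_univ _)]
            · simp [h4]
            · intro x' _ hne
              rw [if_neg]
              rintro ⟨h5, _⟩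
              exact hne (Option.some.inj h5).symm
          · rw [if_neg]
            · symm
              refine Finset.sum_eq_zero fun x' _ => ?_
              rw [if_neg]
              rintro ⟨h5, h6⟩
              rw [← Option.some.inj h5] at h6
              exact h4 h6
            · rintro ⟨x', h5, h6⟩
              rw [← Option.some.inj h5] at h6
              exact h4 h6
      rw [h1]
      push_cast
      refine Finset.sum_congr rfl fun y _ => Finset.sum_congr rfl fun x _ => ?_
      split_ifs <;> simp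
    have h1 : 2 * S.card ≤ 2 * (KKs a).card + (Hs F).card ^ 2 := by
      refine arcs_count ha S ?_ (Hs F) ?_
      · intro q hq
        simp only [hSdef, mem_filter, mem_univ, true_and] at hq
        obtain ⟨x, hx, _⟩ := hq
        simp only [HI.arcs, mem_filter, mem_univ, true_and]
        rw [hx]
        simp
      · intro q hq
        simp only [hSdef, mem_filter, mem_univ, true_and] at hq
        obtain ⟨x, hx, hbx⟩ := hq
        simp only [Hs, mem_filter, mem_univ, true_and]
        have := ba_le_dg ha q.1 x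
        have h2 := hbx.2
        omega
    rw [← hScard]
    exact_mod_cast h1
  -- conclusion
  set KK : ℝ := ((KKs a).card : ℝ) with hKK
  set H2 : ℝ := ((Hs F).card : ℝ) ^ 2 with hH2
  have hH20 : 0 ≤ H2 := sq_nonneg _
  have hKlow : 0.7 * bHH - 0.35 * H2 + 0.15 * b ≤ KK := by linarith
  have h4h : (0 : ℝ) ≤ 4 / h := div_nonneg (by norm_num) (Nat.cast_nonneg h)
  have e1 : 4 / (h : ℝ) * (n / 100 * b + bHH * (c1 - n / 100)) =
      (n : ℝ) / h * (0.04 * b + bHH * (0.71 + δ)) := by
    rw [hc1]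
    ring
  have h5 : 4 / (h : ℝ) * ∑ p : Pr n, (lh a p.1.1 p.1.2 : ℝ) ≤
      (n : ℝ) / h * (0.04 * b + bHH * (0.71 + δ)) := by
    rw [← e1]
    exact mul_le_mul_of_nonneg_left hS h4h
  have hb0 : 0 ≤ b := hbHH0.trans hbHHb
  have h6' : 0 ≤ 0.04 * b + bHH * (0.71 + δ) := by
    have := mul_nonneg hbHH0 (by linarith : (0 : ℝ) ≤ 0.71 + δ)
    linarith
  have h6 : (n : ℝ) / h * (0.04 * b + bHH * (0.71 + δ)) ≤
      (lam + 2) * (0.04 * b + bHH * (0.71 + δ)) :=
    mul_le_mul_of_nonneg_right hnh h6'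
  have h7 : (lam - 1) * (0.7 * bHH - 0.35 * H2 + 0.15 * b) ≤ (lam - 1) * KK :=
    mul_le_mul_of_nonneg_left hKlow (by linarith)
  have h8 : (lam + 2) * (bHH * δ) ≤ 0.01 * bHH := by
    have := mul_le_mul_of_nonneg_right hδ hbHH0
    linarith
  have h9 : (0.01 * lam + 2.13) * bHH ≤ (0.01 * lam + 2.13) * b :=
    mul_le_mul_of_nonneg_left hbHHb (by linarith)
  have h10 : 2.36 * b ≤ 0.01 * lam * b := mul_le_mul_of_nonneg_right (by linarith) hb0
  have h11 : 0.35 * (lam - 1) * H2 ≤ lam * H2 :=
    mul_le_mul_of_nonneg_right (by linarith) hH20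
  nlinarith

theorem heavy_ineq' (hp : Par n h lam δ) (hG : GoodG δ h G) (hF : F ≤ G) (ha : ArcOK F a) :
    1 / h * ∑ p : Pr n, (lh a p.1.1 p.1.2 : ℝ) - lam * (KKs a).card ≤
      -(0.3 * lam * nb a) := by
  have hlam : 10 ^ 6 ≤ lam := hp.big
  have hn0 : (0 : ℝ) ≤ n := Nat.cast_nonneg n
  have hnh : (n : ℝ) / h ≤ lam + 2 := by have := (abs_le.1 hp.close).2; linarith
  have hδ0 := hp.dpos
  have hδ : δ * (lam + 2) ≤ 0.01 := by
    have h1 := hp.dsmall
    have h2 : lam ^ 4 = lam * lam ^ 3 := by ring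
    have h3 : (10 ^ 6 : ℝ) ^ 3 ≤ lam ^ 3 := pow_le_pow_left₀ (by norm_num) hlam 3
    have h4 : (lam + 2) * 1000 ≤ lam ^ 4 := by
      rw [h2]
      have : lam * (10 ^ 6 : ℝ) ^ 3 ≤ lam * lam ^ 3 := mul_le_mul_of_nonneg_left h3 (by linarith)
      nlinarith
    have h5 : δ * ((lam + 2) * 1000) ≤ δ * lam ^ 4 := mul_le_mul_of_nonneg_left h4 hδ0
    linarith
  set b : ℝ := (nb a : ℝ) with hb
  have hb0 : 0 ≤ b := Nat.cast_nonneg _
  have hbsum : ∑ x, ∑ y, (ba a x y : ℝ) = b := by
    rw [hb, ← sum_ba a]; push_cast; rfl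
  have hbsum' : ∑ x, ∑ y, (ba a y x : ℝ) = b := by rw [Finset.sum_comm]; exact hbsum
  have hS : ∑ p : Pr n, (lh a p.1.1 p.1.2 : ℝ) ≤ b * ((3 / 4 + δ) * n / 4) := by
    have h1 := sum_lh a
    have h2 : ∑ x, ∑ y, (ba a x y : ℝ) * ba a y x ≤ 2 * (b * ((3 / 4 + δ) * n / 4)) := by
      calc ∑ x, ∑ y, (ba a x y : ℝ) * ba a y x
          ≤ ∑ x, ∑ y, ((ba a x y : ℝ) + ba a y x) * ((3 / 4 + δ) * n / 4) :=
            Finset.sum_le_sum fun x _ => Finset.sum_le_sum fun y _ => prod_le hG hF ha x y
        _ = (∑ x, ∑ y, (ba a x y : ℝ) + ∑ x, ∑ y, (ba a y x : ℝ)) * ((3 / 4 + δ) * n / 4) := by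
            simp only [Finset.sum_add_distrib, ← Finset.sum_mul]
        _ = _ := by
            rw [hbsum, hbsum']
            ring
    linarith
  have hK1 : b ≤ 2 * ((KKs a).card : ℝ) := by
    have := nb_le ha
    rw [hb]
    exact_mod_cast this
  set KK : ℝ := ((KKs a).card : ℝ) with hKK
  have h1h : (0 : ℝ) ≤ 1 / h := by positivity
  have h5 : 1 / (h : ℝ) * ∑ p : Pr n, (lh a p.1.1 p.1.2 : ℝ) ≤
      (n : ℝ) / h * (b * (3 / 4 + δ) / 4) := by
    have e1 : 1 / (h : ℝ) * (b * ((3 / 4 + δ) * n / 4)) = (n : ℝ) / h * (b * (3 / 4 + δ) / 4) := by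
      ring
    rw [← e1]
    exact mul_le_mul_of_nonneg_left hS h1h
  have h6 : (n : ℝ) / h * (b * (3 / 4 + δ) / 4) ≤ (lam + 2) * (b * (3 / 4 + δ) / 4) :=
    mul_le_mul_of_nonneg_right hnh (by positivity)
  have h7 : lam * (b / 2) ≤ lam * KK := mul_le_mul_of_nonneg_left (by linarith) (by linarith)
  have h8 : (lam + 2) * (b * δ) ≤ 0.01 * b := by
    have := mul_le_mul_of_nonneg_right hδ hb0
    linarith
  have h10 : 0.38 * b ≤ 0.0125 * lam * b := mul_le_mul_of_nonneg_right (by linarith) hb0
  nlinarith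

end

end

end PS
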