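import Pool.Agent.Helper67.PS.DI
import Pool.Agent.Helper80.PS.NU
import Pool.Agent.Helper89.PS.HI
import Pool.Agent.Helper37.PathSys.Upper

/-!
# MP_8013d7_co (full answer): the potential (module PO)
-/

set_option autoImplicit false

namespace PS

open SimpleGraph Finset Pool.Agent.Helper37.PathSys
open Pool.Agent.Helper37.PathSys.PathSystem
open Filter Topology

open scoped Classical

noncomputable section

variable {n : ℕ} {G : SimpleGraph (Fin n)} {P : PathSystem G}

section ineq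

variable {h : ℕ} {lam δ : ℝ} {F : SimpleGraph (Fin n)} {a : Arc n}

namespace PO

theorem rem_card (ha : ArcOK F a) :
    (nE F : ℝ) + (KKs a).card + (Rem F a).card = NN n := by
  have h1 : Disjoint (univ.filter fun p : Pr n => F.Adj p.1.1 p.1.2) (KKs a) := by
    rw [Finset.disjoint_left]
    intro p hp hK
    simp only [mem_filter, mem_univ, true_and] at hp
    simp only [KKs, mem_filter, mem_univ, true_and] at hK
    rcases hK with hK | hK
    · obtain ⟨x, hx⟩ := Option.ne_none_iff_exists'.1 hK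
      exact (ha _ _ _ hx).2.2.2 hp.symm
    · obtain ⟨x, hx⟩ := Option.ne_none_iff_exists'.1 hK
      exact (ha _ _ _ hx).2.2.2 hp
  have h2 : (Rem F a) = ((univ.filter fun p : Pr n => F.Adj p.1.1 p.1.2) ∪ KKs a)ᶜ := by
    ext p
    simp only [Rem, mem_filter, mem_univ, true_and, mem_compl, mem_union, not_or]
  have h3 : ((univ.filter fun p : Pr n => F.Adj p.1.1 p.1.2) ∪ KKs a).card =
      nE F + (KKs a).card := by
    rw [card_union_of_disjoint h1]
    rfl
  have h4 : (Rem F a).card + (nE F + (KKs a).card) = n.choose 2 := by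
    rw [← h3, h2, card_compl, card_Pr]
    have := card_le_univ ((univ.filter fun p : Pr n => F.Adj p.1.1 p.1.2) ∪ KKs a)
    rw [card_Pr] at this
    omega
  have h5 : ((Rem F a).card : ℝ) + ((nE F : ℝ) + ((KKs a).card : ℝ)) = (n.choose 2 : ℝ) := by
    exact_mod_cast h4
  unfold NN
  linarith

theorem sum_kap_le (F : SimpleGraph (Fin n)) (a : Arc n) :
    ∑ p ∈ Rem F a, (kap F a p : ℝ) ≤
      ∑ p : Pr n, (cod F p.1.1 p.1.2 : ℝ) + ∑ p : Pr n, (lh a p.1.1 p.1.2 : ℝ) := by
  rw [← Finset.sum_add_distrib]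
  calc ∑ p ∈ Rem F a, (kap F a p : ℝ) ≤ ∑ p : Pr n, (kap F a p : ℝ) :=
        Finset.sum_le_univ_sum_of_nonneg fun p => Nat.cast_nonneg _
    _ = _ := by
        refine Finset.sum_congr rfl fun p _ => ?_
        unfold kap
        push_cast
        rfl

theorem h_pos (hp : Par n h lam δ) : (0 : ℝ) < h := by
  obtain ⟨_, _, _, _, _, _, _, _, h1⟩ := num_n hp
  exact h1

end PO

open PO

theorem potential_small (hp : Par n h lam δ) (hG : GoodG δ h G) (hF : F ≤ G) (ha : ArcOK F a)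
    (hE : (nE F : ℝ) ≤ 4 * NN n / lam) {ξ : ℝ} (hξ : 0 < ξ) (hξ' : 4 * ξ / h ≤ 1 / lam) :
    ∑ p ∈ Rem F a, Real.log ((kap F a p : ℝ) + ξ) ≤
      NN n * (lam - 1) + 10 ^ 7 * NN n / lam - lam / 2 * f0 F - lam / 100 * MH δ F
        - 0.09 * lam * nb a - Psi h ξ F a := by
  have hh := h_pos hp
  have hlam : 10 ^ 6 ≤ lam := hp.big
  have hlam0 : 0 < lam := by linarith
  obtain ⟨_, _, hn2, _, _, _, _, hN, _⟩ := num_n hp
  have hrem := rem_card ha
  have hkap := sum_kap_le F a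
  have hdeg := degree_ineq hp hG hF hE
  have hhv := heavy_ineq hp hG hF ha
  have hH := Hs_card hp hE
  -- rewriting the logarithms
  have hlog : ∀ p : Pr n, Real.log ((kap F a p : ℝ) + ξ) =
      (lam - 1) + 4 / h * (kap F a p : ℝ) + 4 * ξ / h - psi (4 * ((kap F a p : ℝ) + ξ) / h) := by
    intro p
    have hpos : (0 : ℝ) < (kap F a p : ℝ) + ξ := by
      have : (0 : ℝ) ≤ (kap F a p : ℝ) := Nat.cast_nonneg _
      linarith
    have h1 : (kap F a p : ℝ) + ξ = (h / 4) * (4 * ((kap F a p : ℝ) + ξ) / h) := by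
      field_simp
    have h2 : Real.log ((kap F a p : ℝ) + ξ) =
        Real.log ((h : ℝ) / 4) + Real.log (4 * ((kap F a p : ℝ) + ξ) / h) := by
      conv_lhs => rw [h1]
      rw [Real.log_mul (by positivity) (by positivity)]
    rw [h2, ← hp.eq]
    unfold psi
    ring
  have hsum : ∑ p ∈ Rem F a, Real.log ((kap F a p : ℝ) + ξ) =
      (Rem F a).card * (lam - 1) + 4 / h * ∑ p ∈ Rem F a, (kap F a p : ℝ) +
        (Rem F a).card * (4 * ξ / h) - Psi h ξ F a := by
    rw [Finset.sum_congr rfl fun p _ => hlog p]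
    unfold Psi
    rw [Finset.sum_sub_distrib, Finset.sum_add_distrib, Finset.sum_add_distrib,
      Finset.sum_const, Finset.sum_const, nsmul_eq_mul, nsmul_eq_mul, Finset.mul_sum]
  have h4h : (0 : ℝ) ≤ 4 / h := by positivity
  have e1 := mul_le_mul_of_nonneg_left hkap h4h
  have e2 : ((Rem F a).card : ℝ) ≤ NN n := by
    have h1 : (0 : ℝ) ≤ (nE F : ℝ) := Nat.cast_nonneg _
    have h2 : (0 : ℝ) ≤ ((KKs a).card : ℝ) := Nat.cast_nonneg _
    linarith
  have e3 : ((Rem F a).card : ℝ) * (4 * ξ / h) ≤ NN n / lam := by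
    calc ((Rem F a).card : ℝ) * (4 * ξ / h) ≤ NN n * (1 / lam) :=
          mul_le_mul e2 hξ' (by positivity) hN.le
      _ = NN n / lam := by ring
  have e4 : lam * ((Hs F).card : ℝ) ^ 2 ≤ 336000 * (NN n / lam) := by
    have h1 : ((Hs F).card : ℝ) ^ 2 ≤ (400 * n / lam) ^ 2 :=
      pow_le_pow_left₀ (Nat.cast_nonneg _) hH 2
    calc lam * ((Hs F).card : ℝ) ^ 2 ≤ lam * (400 * n / lam) ^ 2 :=
          mul_le_mul_of_nonneg_left h1 hlam0.le
      _ = 160000 * (n : ℝ) ^ 2 / lam := by field_simp; ring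
      _ ≤ 160000 * (2.1 * NN n) / lam := by
          apply div_le_div_of_nonneg_right _ hlam0.le
          linarith
      _ = 336000 * (NN n / lam) := by ring
  have e5 : ((Rem F a).card : ℝ) * (lam - 1) =
      NN n * (lam - 1) - (lam - 1) * nE F - (lam - 1) * (KKs a).card := by
    rw [← hrem]
    ring
  have e6 : 0 ≤ NN n / lam := by positivity
  have e7 : (10 : ℝ) ^ 6 * NN n / lam = 10 ^ 6 * (NN n / lam) := by ring
  have e8 : (10 : ℝ) ^ 7 * NN n / lam = 10 ^ 7 * (NN n / lam) := by ring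
  rw [hsum, e5, e8]
  rw [e7] at hdeg
  rw [mul_add] at e1
  linarith

theorem potential_large (hp : Par n h lam δ) (hG : GoodG δ h G) (hF : F ≤ G) (ha : ArcOK F a)
    (hE : 4 * NN n / lam ≤ (nE F : ℝ)) {ξ : ℝ} (hξ : 0 < ξ) (hξ' : 4 * ξ / h ≤ 1 / lam) :
    ∑ p ∈ Rem F a, Real.log ((kap F a p : ℝ) + ξ) ≤
      NN n * (lam - 1) - 0.2 * NN n - 0.09 * lam * nE F - 0.3 * lam * nb a := by
  have hh := h_pos hp
  have hlam : 10 ^ 6 ≤ lam := hp.big
  have hlam0 : 0 < lam := by linarith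
  obtain ⟨_, _, hn2, _, _, _, _, hN, _⟩ := num_n hp
  have hnh : (n : ℝ) / h ≤ lam + 2 := by have := (abs_le.1 hp.close).2; linarith
  have hδ0 := hp.dpos
  obtain ⟨_, _, _, _, _, hδ, _⟩ := di_par_facts hp
  have hrem := rem_card ha
  have hkap := sum_kap_le F a
  have hhv := heavy_ineq' hp hG hF ha
  have hl4 : Real.log 4 = 2 * Real.log 2 := by
    rw [show (4 : ℝ) = 2 ^ 2 by norm_num, Real.log_pow]
    norm_num
  have hl1 := Real.log_two_gt_d9
  have hl2 := Real.log_two_lt_d9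
  have hlogh : Real.log h = lam + Real.log 4 := by
    rw [hp.eq, Real.log_div hh.ne' (by norm_num)]
    ring
  have hlog : ∀ p : Pr n, Real.log ((kap F a p : ℝ) + ξ) ≤
      (lam + Real.log 4 - 1) + 1 / h * (kap F a p : ℝ) + ξ / h := by
    intro p
    have hpos : (0 : ℝ) < (kap F a p : ℝ) + ξ := by
      have : (0 : ℝ) ≤ (kap F a p : ℝ) := Nat.cast_nonneg _
      linarith
    have h1 := Real.log_le_sub_one_of_pos (show 0 < ((kap F a p : ℝ) + ξ) / h by positivity)
    rw [Real.log_div hpos.ne' hh.ne', hlogh] at h1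
    have h2 : ((kap F a p : ℝ) + ξ) / h = 1 / h * (kap F a p : ℝ) + ξ / h := by ring
    linarith
  have hsum : ∑ p ∈ Rem F a, Real.log ((kap F a p : ℝ) + ξ) ≤
      (Rem F a).card * (lam + Real.log 4 - 1) + 1 / h * ∑ p ∈ Rem F a, (kap F a p : ℝ) +
        (Rem F a).card * (ξ / h) := by
    refine (Finset.sum_le_sum fun p _ => hlog p).trans (le_of_eq ?_)
    rw [Finset.sum_add_distrib, Finset.sum_add_distrib,
      Finset.sum_const, Finset.sum_const, nsmul_eq_mul, nsmul_eq_mul, Finset.mul_sum]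
  have h4h : (0 : ℝ) ≤ 1 / h := by positivity
  have e1 := mul_le_mul_of_nonneg_left hkap h4h
  have hE0 : (0 : ℝ) ≤ (nE F : ℝ) := Nat.cast_nonneg _
  have hK0 : (0 : ℝ) ≤ ((KKs a).card : ℝ) := Nat.cast_nonneg _
  have e2 : ((Rem F a).card : ℝ) ≤ NN n := by linarith
  have e3 : ((Rem F a).card : ℝ) * (ξ / h) ≤ 0.01 * NN n := by
    have h1 : ξ / h ≤ 0.01 := by
      have h2 : ξ / (h : ℝ) = (4 * ξ / h) / 4 := by ring
      have h3 : 1 / lam ≤ 0.04 := by
        rw [div_le_iff₀ hlam0]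
        linarith
      rw [h2]
      linarith
    calc ((Rem F a).card : ℝ) * (ξ / h) ≤ NN n * 0.01 :=
          mul_le_mul e2 h1 (by positivity) hN.le
      _ = 0.01 * NN n := by ring
  -- the codegrees
  have e4 : 1 / (h : ℝ) * ∑ p : Pr n, (cod F p.1.1 p.1.2 : ℝ) ≤
      (1 / 2 + δ) * (lam + 2) * nE F := by
    have h1 := sum_cod F
    have h2 : ∑ x, (dg F x : ℝ) ^ 2 ≤ ((1 / 2 + δ) * n) * (2 * nE F) := by
      rw [← di_sum_dg_real, Finset.mul_sum]
      refine Finset.sum_le_sum fun x _ => ?_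
      have h3 : (dg F x : ℝ) ≤ (1 / 2 + δ) * n :=
        le_trans (by exact_mod_cast di_dg_mono hF x) (hG.deg x)
      rw [sq]
      exact mul_le_mul_of_nonneg_right h3 (Nat.cast_nonneg _)
    calc 1 / (h : ℝ) * ∑ p : Pr n, (cod F p.1.1 p.1.2 : ℝ) ≤
          1 / (h : ℝ) * ((1 / 2 + δ) * n * nE F) := by
          apply mul_le_mul_of_nonneg_left _ h4h
          linarith
      _ = (1 / 2 + δ) * nE F * (n / h) := by ring
      _ ≤ (1 / 2 + δ) * nE F * (lam + 2) :=
          mul_le_mul_of_nonneg_left hnh (mul_nonneg (by linarith) hE0)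
      _ = _ := by ring
  have e5 : ((Rem F a).card : ℝ) * (lam + Real.log 4 - 1) =
      NN n * (lam + Real.log 4 - 1) - (lam + Real.log 4 - 1) * nE F
        - (lam + Real.log 4 - 1) * (KKs a).card := by
    rw [← hrem]
    ring
  have e6 : lam * (KKs a).card ≤ (lam + Real.log 4 - 1) * (KKs a).card :=
    mul_le_mul_of_nonneg_right (by linarith) hK0
  have e7 : NN n * (lam + Real.log 4 - 1) ≤ NN n * (lam + 0.387) :=
    mul_le_mul_of_nonneg_left (by linarith) hN.le
  have e8 : 0.49 * lam * nE F + (1 / 2 + δ) * (lam + 2) * nE F ≤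
      (lam + Real.log 4 - 1) * nE F := by
    rw [← add_mul]
    apply mul_le_mul_of_nonneg_right _ hE0
    have : (1 / 2 + δ) * (lam + 2) = lam / 2 + 1 + δ * (lam + 2) := by ring
    linarith
  have e9 : 1.6 * NN n ≤ 0.4 * lam * nE F := by
    rw [div_le_iff₀ hlam0] at hE
    linarith
  rw [mul_add] at e1
  nlinarith

end ineq

end

end PS
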