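import Pool.Agent.Helper21.PS.Basic

/-!
# MP_8013d7_co, module AP: asymptotics of the parameters
-/

set_option autoImplicit false

namespace PS

open SimpleGraph Finset Pool.Agent.Helper37.PathSys
open Pool.Agent.Helper37.PathSys.PathSystem
open Filter Topology

open scoped Classical

noncomputable section

/-! ## Module AP (asymptotics of the parameters) -/

lemma AP_nat {p : ℝ → Prop} (h : ∀ᶠ x : ℝ in atTop, p x) : ∀ᶠ n : ℕ in atTop, p n :=
  tendsto_natCast_atTop_atTop.eventually h

/-- powers of the logarithm are small -/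
lemma AP_log_pow (k : ℕ) {s : ℝ} (hs : 0 < s) :
    ∀ᶠ n : ℕ in atTop, (Real.log n) ^ k ≤ (n : ℝ) ^ s := by
  have h := (isLittleO_log_rpow_rpow_atTop (k : ℝ) hs).bound (c := 1) one_pos
  have h2 : ∀ᶠ x : ℝ in atTop, (Real.log x) ^ k ≤ x ^ s := by
    filter_upwards [h, eventually_gt_atTop (1 : ℝ)] with x hx hx1
    have h3 : 0 < Real.log x := Real.log_pos hx1
    rw [Real.norm_of_nonneg (by positivity), Real.norm_of_nonneg (by positivity), one_mul,
      Real.rpow_natCast] at hx
    exact hx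
  exact AP_nat h2

/-- the basic facts -/
lemma AP_key : ∀ᶠ n : ℕ in atTop, Real.log n / 2 - 2 ≤ lam n ∧ lam n ≤ Real.log n ∧
    |(n : ℝ) / hh n - lam n| ≤ 2 := by
  have hlog : Tendsto (fun n : ℕ => Real.log (n : ℝ)) atTop atTop :=
    Real.tendsto_log_atTop.comp tendsto_natCast_atTop_atTop
  have hloglog : ∀ᶠ n : ℕ in atTop, Real.log (Real.log n) ≤ 0.01 * Real.log n := by
    have h1 : ∀ᶠ x : ℝ in atTop, Real.log x ≤ 0.01 * x := by
      have h := Real.isLittleO_log_id_atTop.bound (c := 0.01) (by norm_num)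
      filter_upwards [h, eventually_gt_atTop (1 : ℝ)] with x hx hx1
      have h3 : 0 < Real.log x := Real.log_pos hx1
      rw [Real.norm_of_nonneg h3.le, id, Real.norm_of_nonneg (by linarith)] at hx
      exact hx
    exact hlog.eventually h1
  have hsq : ∀ᶠ n : ℕ in atTop, (Real.log n) ^ 3 ≤ (n : ℝ) := by
    have := AP_log_pow 3 (s := 1) one_pos
    filter_upwards [this] with n hn
    rwa [Real.rpow_one] at hn
  filter_upwards [hloglog, hsq, hlog.eventually (eventually_ge_atTop (1000 : ℝ)),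
    eventually_ge_atTop 2] with n h1 h2 h3 h4
  set L := Real.log (n : ℝ) with hL
  have hn0 : (0 : ℝ) < n := by
    have : 0 < n := by omega
    exact_mod_cast this
  have hLL0 : 0 ≤ Real.log L := Real.log_nonneg (by linarith)
  have hLL1 : 0.2 ≤ Real.log L := by
    have h5 : (1 : ℝ) ≤ Real.log 3 := by
      rw [Real.le_log_iff_exp_le (by norm_num)]
      linarith [Real.exp_one_lt_d9]
    have h6 : Real.log 3 ≤ Real.log L := Real.log_le_log (by norm_num) (by linarith)
    linarith
  set g := L - Real.log L with hg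
  have hgL : g ≤ L := by linarith
  have hg1 : 0.99 * L ≤ g := by linarith
  have hg0 : 0 < g := by linarith
  have hh' : hh n = ⌊(n : ℝ) / g⌋₊ := rfl
  set h := hh n with hhdef
  have hup : (h : ℝ) ≤ n / g := by
    rw [hh']
    exact Nat.floor_le (by positivity)
  have hlo : (n : ℝ) / g - 1 < h := by
    rw [hh']
    linarith [Nat.lt_floor_add_one ((n : ℝ) / g)]
  -- lower bound for `h`
  have hlo2 : (n : ℝ) / (g + 0.1) ≤ h := by
    have h5 : (n : ℝ) / (g + 0.1) ≤ n / g - 1 := by
      rw [le_sub_iff_add_le, ← sub_nonneg]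
      have e : (n : ℝ) / g - (n / (g + 0.1) + 1) = (0.1 * n - g * (g + 0.1)) / (g * (g + 0.1)) := by
        field_simp
        ring
      rw [e]
      apply div_nonneg _ (by positivity)
      have h6 : g * (g + 0.1) ≤ L * (L + 0.1) := by
        apply mul_le_mul hgL (by linarith) (by linarith) (by linarith)
      have h8 : 1000 * L ^ 2 ≤ L * L ^ 2 := mul_le_mul_of_nonneg_right h3 (sq_nonneg L)
      have h9 : L * L ^ 2 = L ^ 3 := by ring
      have h10 : L * 1 ≤ L * L := mul_le_mul_of_nonneg_left (by linarith) (by linarith)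
      have h7 : L * (L + 0.1) ≤ 0.1 * L ^ 3 := by nlinarith
      linarith
    linarith
  have hpos : (0 : ℝ) < h := lt_of_lt_of_le (by positivity) hlo2
  have hnh1 : g ≤ n / h := by
    rw [le_div_iff₀ hpos]
    rw [le_div_iff₀ hg0] at hup
    linarith
  have hnh2 : (n : ℝ) / h ≤ g + 0.1 := by
    rw [div_le_iff₀ hpos]
    rw [div_le_iff₀ (by linarith)] at hlo2
    linarith
  -- the logarithm
  have hlam : lam n = Real.log (h : ℝ) - Real.log 4 := by
    unfold lam
    rw [Real.log_div hpos.ne' (by norm_num)]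
  have hlog4 : Real.log 4 ≤ 1.4 := by
    have : (4 : ℝ) = 2 ^ 2 := by norm_num
    rw [this, Real.log_pow]
    push_cast
    linarith [Real.log_two_lt_d9]
  have hlog4' : 1.3 ≤ Real.log 4 := by
    have : (4 : ℝ) = 2 ^ 2 := by norm_num
    rw [this, Real.log_pow]
    push_cast
    linarith [Real.log_two_gt_d9]
  have hl1 : Real.log (h : ℝ) ≤ L - Real.log g := by
    rw [hL, ← Real.log_div hn0.ne' hg0.ne']
    exact Real.log_le_log hpos hup
  have hl2 : L - Real.log (g + 0.1) ≤ Real.log (h : ℝ) := by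
    rw [hL, ← Real.log_div hn0.ne' (by linarith)]
    exact Real.log_le_log (by positivity) hlo2
  have hl3 : Real.log (g + 0.1) ≤ Real.log L := Real.log_le_log (by linarith) (by linarith)
  have hl4 : Real.log L - 0.02 ≤ Real.log g := by
    have h5 : Real.log (0.99 * L) ≤ Real.log g := Real.log_le_log (by linarith) hg1
    rw [Real.log_mul (by norm_num) (by linarith)] at h5
    have h6 : -0.02 ≤ Real.log 0.99 := by
      have h7 := Real.one_sub_inv_le_log_of_pos (show (0 : ℝ) < 0.99 by norm_num)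
      have h8 : (-0.02 : ℝ) ≤ 1 - (0.99 : ℝ)⁻¹ := by norm_num
      linarith
    linarith
  refine ⟨?_, ?_, ?_⟩
  · rw [hlam]
    linarith
  · rw [hlam]
    linarith
  · rw [hlam, abs_le]
    constructor
    · linarith
    · linarith

theorem lam_tendsto : Tendsto lam atTop atTop := by
  have hlog : Tendsto (fun n : ℕ => Real.log (n : ℝ)) atTop atTop :=
    Real.tendsto_log_atTop.comp tendsto_natCast_atTop_atTop
  have h1 : Tendsto (fun n : ℕ => Real.log (n : ℝ) / 2 - 2) atTop atTop :=
    tendsto_atTop_add_const_right _ _ (hlog.atTop_div_const two_pos)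
  refine tendsto_atTop_mono' _ ?_ h1
  filter_upwards [AP_key] with n hn
  exact hn.1

theorem par_eventually (Λ0 : ℝ) :
    ∀ᶠ n : ℕ in atTop, Par n (hh n) (lam n) (dl n) ∧ Λ0 ≤ lam n := by
  filter_upwards [AP_key, lam_tendsto.eventually (eventually_ge_atTop (10 ^ 6 : ℝ)),
    lam_tendsto.eventually (eventually_ge_atTop Λ0), AP_log_pow 4 (s := 1 / 4) (by norm_num),
    AP_log_pow 10 (s := 1 / 10000) (by norm_num), eventually_ge_atTop 1] with n h1 h2 h3 h4 h5 h6
  have hn0 : (0 : ℝ) < n := by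
    have : 0 < n := by omega
    exact_mod_cast this
  have hl0 : 0 ≤ lam n := by linarith
  refine ⟨⟨h2, rfl, h1.2.2, ?_, ?_, ?_⟩, h3⟩
  · unfold dl
    positivity
  · unfold dl
    calc (n : ℝ) ^ (-(1 / 4) : ℝ) * lam n ^ 4 ≤ (n : ℝ) ^ (-(1 / 4) : ℝ) * (n : ℝ) ^ (1 / 4 : ℝ) := by
          have h7 : lam n ^ 4 ≤ Real.log n ^ 4 := pow_le_pow_left₀ hl0 h1.2.1 4
          exact mul_le_mul_of_nonneg_left (h7.trans h4) (by positivity)
      _ = 1 := by
          rw [← Real.rpow_add hn0]
          norm_num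
  · calc (n : ℝ) ^ (-(1 / 10000 : ℝ)) * lam n ^ 10 ≤
        (n : ℝ) ^ (-(1 / 10000 : ℝ)) * (n : ℝ) ^ (1 / 10000 : ℝ) := by
          have h7 : lam n ^ 10 ≤ Real.log n ^ 10 := pow_le_pow_left₀ hl0 h1.2.1 10
          exact mul_le_mul_of_nonneg_left (h7.trans h5) (by positivity)
      _ = 1 := by
          rw [← Real.rpow_add hn0]
          norm_num

theorem lam_sq_div : Tendsto (fun n : ℕ => lam n ^ 2 / (n : ℝ)) atTop (𝓝 0) := by
  have h1 : Tendsto (fun n : ℕ => Real.log (n : ℝ) ^ 2 / (n : ℝ)) atTop (𝓝 0) := by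
    have h2 := Real.tendsto_pow_log_div_mul_add_atTop 1 0 2 one_ne_zero
    have h3 := h2.comp (tendsto_natCast_atTop_atTop (R := ℝ))
    refine h3.congr fun n => ?_
    simp
  refine squeeze_zero' ?_ ?_ h1
  · filter_upwards with n
    positivity
  · filter_upwards [AP_key, lam_tendsto.eventually (eventually_ge_atTop (0 : ℝ))] with n hn h0
    have h7 : lam n ^ 2 ≤ Real.log n ^ 2 := pow_le_pow_left₀ h0 hn.2.1 2
    exact div_le_div_of_nonneg_right h7 (Nat.cast_nonneg n)

end

end PS
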